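import Pool.Agent.H74.PZ.Fin

/-!
# Patterns of zeros: the zeros of the L-functions of `ℚ(ζ_q)` contain no large product sets

For sets `A`, `B` of pairs (Dirichlet character mod `q`, ordinate in `[-T, T]`) such that
`L(1/2 + i(a + b), χ ψ) = 0` for all `(χ, a) ∈ A`, `(ψ, b) ∈ B`, the bound `|A| ≥ (qT)^α` forces
`|B| ≤ (qT)^(1 - α²/8) (2 + log (qT))^(C/α)`, with an absolute constant `C`.
-/

namespace Pool.Agent.Results.MP_3b6604_nt.PatternsOfZeros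

open Pool.Agent.H14

/-- There is an absolute constant `C` such that the following holds for all `q ≥ 1`, `T ≥ 1` and
`0 < α ≤ 1`.  Let `A` and `B` be finite sets of pairs `(χ, t)`, `χ` a Dirichlet character mod `q` (that is, a
character of the Galois group of `ℚ(ζ_q)`), `t` real, `|t| ≤ T`.  Suppose that
`L(1/2 + i(a + b), χ ψ) = 0` for all `(χ, a) ∈ A` and all `(ψ, b) ∈ B` (L-functions of the primitive
characters).  If `|A| ≥ (q T)^α`, then `|B| ≤ (q T)^(1 - α²/8) (2 + log (q T))^(C/α)`. -/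
theorem result : ∃ C : ℝ, 0 < C ∧ ∀ (q : ℕ) [NeZero q] (T α : ℝ), 1 ≤ T → 0 < α → α ≤ 1 →
    ∀ A B : Finset (DirichletCharacter ℂ q × ℝ),
    (∀ p ∈ A, |p.2| ≤ T) → (∀ p ∈ B, |p.2| ≤ T) →
    (∀ p ∈ A, ∀ p' ∈ B, artinL (p.1 * p'.1) (1 / 2 + ((p.2 + p'.2 : ℝ) : ℂ) * Complex.I) = 0) →
    ((q : ℝ) * T) ^ α ≤ A.card →
    (B.card : ℝ) ≤ ((q : ℝ) * T) ^ (1 - α ^ 2 / 8) * (2 + Real.log ((q : ℝ) * T)) ^ (C / α) :=
  Pool.Agent.H74.PZ.final

end Pool.Agent.Results.MP_3b6604_nt.PatternsOfZeros
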